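import Pool.Agent.Lib.MP_c4305c_gt.Vd
import Pool.Agent.Lib.MP_c4305c_gt.Constr
import Pool.Agent.Lib.MP_c4305c_gt.Omega

set_option autoImplicit false

/-!
# A compact factor whose normality class has no description by collectionwise normality and
partial paracompactness (MP_c4305c_gt, Q1)
-/

namespace Pool.Agent.Results.MP_c4305c_gt.NoCharacterization

open Topology Set

/-- A normal space: `T₁`, and disjoint closed sets have disjoint open neighbourhoods. -/
def IsNormal (X : Type) [TopologicalSpace X] : Prop :=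
  (∀ x : X, IsClosed ({x} : Set X)) ∧
    ∀ A B : Set X, IsClosed A → IsClosed B → Disjoint A B →
      ∃ U V : Set X, IsOpen U ∧ IsOpen V ∧ A ⊆ U ∧ B ⊆ V ∧ Disjoint U V

/-- `κ`-paracompactness: every open cover of cardinality at most `κ` has a locally finite open
refinement. -/
def IsPara (κ : Cardinal.{0}) (X : Type) [TopologicalSpace X] : Prop :=
  ∀ 𝒰 : Set (Set X), Cardinal.mk 𝒰 ≤ κ → (∀ U ∈ 𝒰, IsOpen U) → ⋃₀ 𝒰 = univ →
    ∃ 𝒱 : Set (Set X), (∀ V ∈ 𝒱, IsOpen V) ∧ (∀ V ∈ 𝒱, ∃ U ∈ 𝒰, V ⊆ U) ∧ ⋃₀ 𝒱 = univ ∧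
      ∀ x : X, ∃ W ∈ 𝓝 x, {V ∈ 𝒱 | (V ∩ W).Nonempty}.Finite

/-- `<lam`-paracompactness: `κ`-paracompact for every cardinal `κ < lam`. -/
def IsParaBelow (lam : Cardinal.{0}) (X : Type) [TopologicalSpace X] : Prop :=
  ∀ κ < lam, IsPara κ X

/-- `κ`-collectionwise normality: normal, and every discrete family of at most `κ` closed sets has
pairwise disjoint open neighbourhoods. -/
def IsCWN (κ : Cardinal.{0}) (X : Type) [TopologicalSpace X] : Prop :=
  IsNormal X ∧
    ∀ (S : Type) (F : S → Set X), Cardinal.mk S ≤ κ → (∀ s, IsClosed (F s)) →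
      (∀ x : X, ∃ W ∈ 𝓝 x, ∀ s t, (F s ∩ W).Nonempty → (F t ∩ W).Nonempty → s = t) →
      ∃ U : S → Set X, (∀ s, IsOpen (U s)) ∧ (∀ s, F s ⊆ U s) ∧ ∀ s t, s ≠ t → Disjoint (U s) (U t)

theorem isNormal_iff {X : Type} [TopologicalSpace X] : IsNormal X ↔ T1Space X ∧ NormalSpace X := by
  constructor
  · rintro ⟨h1, h2⟩
    exact ⟨⟨h1⟩, ⟨fun A B hA hB hAB => h2 A B hA hB hAB⟩⟩
  · rintro ⟨h1, h2⟩
    exact ⟨fun x => isClosed_singleton, fun A B hA hB hAB => h2.normal A B hA hB hAB⟩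

open Pool.Agent.Lib.MP_c4305c_gt in
theorem exists_om (C : Type) [TopologicalSpace C] [CompactSpace C] [T2Space C]
    (ht : ∀ (S : Set C) (c : C), c ∈ closure S → ∃ S₀ ⊆ S, S₀.Countable ∧ c ∈ closure S₀) :
    ∃ (W : Type) (_ : LinearOrder W) (_ : TopologicalSpace W),
      WellFoundedLT W ∧ OrderTopology W ∧ Cardinal.mk W = Cardinal.aleph 1 ∧
      (∀ x : W, (Iio x).Countable) ∧ NormalSpace (W × C) ∧
      ∀ V : W → Set W, (∀ i, V i ⊆ Iio i) → (⋃ i, V i) = univ → LocallyFinite V → False := by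
  have hno : NoMaxOrder (Cardinal.aleph 1).ord.ToType :=
    Cardinal.noMaxOrder (Cardinal.aleph0_le_aleph 1)
  have hne : Nonempty (Cardinal.aleph 1).ord.ToType := by
    rw [Ordinal.nonempty_toType_iff, ne_eq, Cardinal.ord_eq_zero]
    exact (Cardinal.aleph_pos 1).ne'
  have hIio : ∀ x : (Cardinal.aleph 1).ord.ToType, (Iio x).Countable := by
    intro x
    rw [← Cardinal.le_aleph0_iff_set_countable, ← Cardinal.lt_aleph_one_iff]
    exact Cardinal.mk_Iio_toType_ord_lt x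
  have hbd : ∀ s : Set (Cardinal.aleph 1).ord.ToType, s.Countable → BddAbove s := by
    intro s hs
    by_contra hcon
    have hcov : (univ : Set (Cardinal.aleph 1).ord.ToType) ⊆ ⋃ i ∈ s, Iio i := by
      intro x _
      rw [not_bddAbove_iff] at hcon
      obtain ⟨y, hy, hxy⟩ := hcon x
      simp only [mem_iUnion, exists_prop]
      exact ⟨y, hy, hxy⟩
    have hc : (univ : Set (Cardinal.aleph 1).ord.ToType).Countable :=
      (hs.biUnion fun i _ => hIio i).mono hcov
    rw [← Cardinal.le_aleph0_iff_set_countable, Cardinal.mk_univ, Cardinal.mk_ord_toType] at hc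
    exact absurd hc (not_le.2 Cardinal.aleph0_lt_aleph_one)
  let hbot : OrderBot (Cardinal.aleph 1).ord.ToType := WellFoundedLT.toOrderBot _
  let hcc : ConditionallyCompleteLinearOrderBot (Cardinal.aleph 1).ord.ToType :=
    WellFoundedLT.conditionallyCompleteLinearOrderBot _
  let hsu : SuccOrder (Cardinal.aleph 1).ord.ToType := SuccOrder.ofLinearWellFoundedLT _
  let htop : TopologicalSpace (Cardinal.aleph 1).ord.ToType := Preorder.topology _
  have hot : OrderTopology (Cardinal.aleph 1).ord.ToType := ⟨rfl⟩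
  refine ⟨(Cardinal.aleph 1).ord.ToType, inferInstance, htop, inferInstance, ⟨rfl⟩,
    Cardinal.mk_ord_toType _, hIio, ?_, ?_⟩
  · exact normal_prod hbd ht
  · intro V hV hcov hlf
    exact not_refine hbd V hV hcov hlf

theorem not_para {W : Type} [LinearOrder W] [TopologicalSpace W] [OrderTopology W]
    (hmk : Cardinal.mk W = Cardinal.aleph 1) (hcov : ∀ x : W, ∃ y : W, x < y)
    (hV : ∀ V : W → Set W, (∀ i, V i ⊆ Iio i) → (⋃ i, V i) = univ → LocallyFinite V → False) :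
    ¬ IsPara (Cardinal.aleph 1) W := by
  intro h
  obtain ⟨𝒱, hopen, href, hun, hlf⟩ := h (range fun i : W => Iio i)
    (Cardinal.mk_range_le.trans hmk.le) (by rintro _ ⟨i, rfl⟩; exact isOpen_Iio) (by
      rw [eq_univ_iff_forall]
      intro x
      obtain ⟨y, hy⟩ := hcov x
      exact ⟨Iio y, ⟨y, rfl⟩, hy⟩)
  have hch : ∀ V : Set W, ∃ i : W, V ∈ 𝒱 → V ⊆ Iio i := by
    intro V
    by_cases hVm : V ∈ 𝒱
    · obtain ⟨_, ⟨i, rfl⟩, hi⟩ := href V hVm
      exact ⟨i, fun _ => hi⟩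
    · have hne : Nonempty W := by
        rw [← Cardinal.mk_ne_zero_iff, hmk]
        exact (Cardinal.aleph_pos 1).ne'
      exact ⟨hne.some, fun h => absurd h hVm⟩
  choose u hu using hch
  refine hV (fun i => ⋃₀ {V ∈ 𝒱 | u V = i}) ?_ ?_ ?_
  · intro i
    refine sUnion_subset ?_
    rintro V ⟨hVm, rfl⟩
    exact hu V hVm
  · rw [eq_univ_iff_forall] at hun ⊢
    intro x
    obtain ⟨V, hVm, hxV⟩ := hun x
    exact mem_iUnion.2 ⟨u V, V, ⟨hVm, rfl⟩, hxV⟩
  · intro x
    obtain ⟨N, hN, hfin⟩ := hlf x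
    refine ⟨N, hN, (hfin.image u).subset ?_⟩
    rintro i ⟨z, ⟨V, ⟨hVm, hVi⟩, hzV⟩, hzN⟩
    exact ⟨V, ⟨hVm, ⟨z, hzV, hzN⟩⟩, hVi⟩

/-- No cardinals `κ`, `lam` describe the class `N(C)` for a certain compact space `C`. -/
theorem result :
    ∃ (X : Type) (_ : TopologicalSpace X) (W : Type) (_ : LinearOrder W)
      (_ : TopologicalSpace W),
      -- the compact space is the one-point compactification of `X`
      (T2Space X ∧ LocallyCompactSpace X ∧ T2Space (OnePoint X) ∧ CompactSpace (OnePoint X)) ∧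
      -- `X` is not in the class
      (IsPara Cardinal.aleph0 X ∧ (∀ κ, IsCWN κ X) ∧ ¬ IsNormal (X × OnePoint X)) ∧
      -- `W` is the space of countable ordinals
      (WellFoundedLT W ∧ OrderTopology W ∧ Uncountable W ∧ ∀ x : W, (Iio x).Countable) ∧
      -- `W` is in the class
      (IsNormal (W × OnePoint X) ∧ ¬ IsPara (Cardinal.aleph 1) W) ∧
      -- the answer to the question for `C`
      ∀ κ lam : Cardinal.{0}, ¬ ∀ (Y : Type) [TopologicalSpace Y],
        (IsNormal (Y × OnePoint X) ↔ IsCWN κ Y ∧ IsParaBelow lam Y) := by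
  obtain ⟨X, τ, π, hX⟩ := Pool.Agent.Lib.MP_c4305c_gt.exists_vd
  have h2 := hX.t2
  have h3 := hX.wlc
  have hnX : IsNormal X := isNormal_iff.2 ⟨inferInstance, hX.normal⟩
  obtain ⟨W, hW1, hW2, hW3, hW4, hmk, hIio, hnorm, hV⟩ := exists_om (OnePoint X) hX.tight
  have hunc : Uncountable W := by
    rw [← Cardinal.aleph0_lt_mk_iff, hmk]
    exact Cardinal.aleph0_lt_aleph_one
  have hnomax : ∀ x : W, ∃ y : W, x < y := by
    intro x
    by_contra hcon
    push Not at hcon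
    have h1 : (univ : Set W) ⊆ insert x (Iio x) := by
      intro y _
      rcases (hcon y).lt_or_eq with h | h
      · exact Or.inr h
      · exact Or.inl h
    have h4 : (univ : Set W).Countable := ((hIio x).insert x).mono h1
    exact hunc.not_countable (countable_univ_iff.1 h4)
  have hnp : ¬ IsPara (Cardinal.aleph 1) W := not_para hmk hnomax hV
  have hcwn : ∀ κ, IsCWN κ X := by
    intro κ
    refine ⟨hnX, fun S F _ hF hd => ?_⟩
    obtain ⟨U, hU1, hU2, hU3⟩ := hX.cwn F hF (fun x => by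
      obtain ⟨N, hN, hNd⟩ := hd x
      refine ⟨N, hN, fun i j hi hj => hNd i j ?_ ?_⟩
      · rwa [inter_comm]
      · rwa [inter_comm])
    exact ⟨U, hU1, hU2, fun s t hst => hU3 hst⟩
  have hpara : ∀ κ, κ < Cardinal.aleph 1 → IsPara κ X := by
    intro κ hκ 𝒰 hc hopen hun
    have hcount : Countable 𝒰 := by
      rw [← Cardinal.mk_le_aleph0_iff, ← Cardinal.lt_aleph_one_iff]
      exact hc.trans_lt hκ
    obtain ⟨V, hV1, hV2, hV3, hV4⟩ := hX.cpara (fun U : 𝒰 => (U : Set X))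
      (fun U => hopen U U.2) (by rw [← sUnion_eq_iUnion]; exact hun)
    refine ⟨range V, ?_, ?_, ?_, ?_⟩
    · rintro _ ⟨U, rfl⟩; exact hV1 U
    · rintro _ ⟨U, rfl⟩; exact ⟨U, U.2, hV2 U⟩
    · rw [sUnion_range]; exact hV3
    · intro x
      obtain ⟨N, hN, hfin⟩ := hV4 x
      refine ⟨N, hN, (hfin.image V).subset ?_⟩
      rintro _ ⟨⟨U, rfl⟩, hU⟩
      exact ⟨U, hU, rfl⟩
  have hT1 : T1Space (W × OnePoint X) := inferInstance
  have hin : IsNormal (W × OnePoint X) := isNormal_iff.2 ⟨hT1, hnorm⟩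
  have hout : ¬ IsNormal (X × OnePoint X) := fun h => hX.not_normal_prod (isNormal_iff.1 h).2
  refine ⟨X, τ, W, hW1, hW2, ⟨h2, inferInstance, inferInstance, inferInstance⟩,
    ⟨hpara _ Cardinal.aleph0_lt_aleph_one, hcwn, hout⟩, ⟨hW3, hW4, hunc, hIio⟩, ⟨hin, hnp⟩, ?_⟩
  intro κ lam hall
  rcases le_or_gt lam (Cardinal.aleph 1) with hle | hgt
  · exact hout ((hall X).2 ⟨hcwn κ, fun μ hμ => hpara μ (hμ.trans_le hle)⟩)
  · exact hnp (((hall W).1 hin).2 _ hgt)

end Pool.Agent.Results.MP_c4305c_gt.NoCharacterization
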